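import Pool.Agent.H693.EQ.Grp

/-!
# Freiman-Ruzsa for finite sets which are almost invariant under a group of automorphisms

Let a group `G` act by automorphisms on an abelian group `Γ` (for instance `Γ = ℤ ^ n` and
`G ≤ GL (n, ℤ)`, or `Γ` a number field and `G` a group of nonzero numbers, or a Galois group), and
let `A ⊆ Γ` be finite and nonempty with `|A + g A| ≤ K |A|` for all `g` in `G`.  (For a set with
`|A + A| ≤ K |A|` this holds for the group of all automorphisms of `Γ` which map `A` onto a
translate of `A`.)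

1. `A` is covered by at most `(2 K) ^ 1704` cosets of a `G`-INVARIANT pure subgroup `Δ` of rank at
   most `1702 log (2 K)`.
2. If the `G`-orbit of every nonzero element of `Γ` has rank greater than `1702 log (2 K)`, then
   `|A| ≤ (2 K) ^ 1704`: large sets grow under addition of one of their images.  So the conclusion of
   the polynomial Freiman-Ruzsa conjecture holds, with an absolute constant, for `A` and for all the
   sets of integers which are images of `A` under homomorphisms injective on `A`.

Proof.  The function `Φ W = E_g H(g X mod W) + dim W` of the finite-dimensional subspaces `W` of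
`ℚ ⊗ Γ`, where `X` is uniformly distributed on `A`, is submodular and `G`-invariant.  So its LEAST
minimiser `W` is `G`-invariant.  The weak polynomial Freiman-Ruzsa theorem of the library
(`|A + A| ≤ K |A|` implies that polynomially many cosets of a subgroup of rank `O(log K)`
cover `A`) shows that the minimum is `O(log K)`.  For infinite `G` the averages exist after a
reduction to finite orbits by the lemma of B. H. Neumann on coverings of groups by cosets.
-/

set_option autoImplicit false
open scoped Pointwise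

namespace Pool.Agent.Results.MP_626a77_co.AlmostInvariantSets

open scoped Classical in
/-- `|A + g A| ≤ K |A|` for all `g` in the group `G` -/
def AlmostInvariant (G : Type*) {Γ : Type*} [Group G] [AddCommGroup Γ] [DistribMulAction G Γ]
    (K : ℝ) (A : Finset Γ) : Prop :=
  ∀ g : G, ((A + A.image (fun x => g • x)).card : ℝ) ≤ K * (A.card : ℝ)

/-- the conclusion of the polynomial Freiman-Ruzsa conjecture (Q1) for a set `A` of integers, the
doubling constant `K` and the absolute constant `C` -/
def Q1Conclusion (C K : ℝ) (A : Finset ℤ) : Prop :=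
  ∃ (d : ℕ) (B : Set (Fin d → ℝ)) (v : Fin d → ℤ) (T : Finset ℤ),
    (d : ℝ) ≤ C * Real.log K ∧
    Convex ℝ B ∧ IsCompact B ∧ (interior B).Nonempty ∧ (∀ x ∈ B, -x ∈ B) ∧
    {x : Fin d → ℤ | (fun i => (x i : ℝ)) ∈ B}.ncard ≤ A.card ∧
    (T.card : ℝ) ≤ C * K ^ C ∧
    ∀ a ∈ A, ∃ t ∈ T, ∃ x : Fin d → ℤ, (fun i => (x i : ℝ)) ∈ B ∧ a = t + ∑ i, v i * x i

open scoped Classical in
/-- **Main theorem.** -/
theorem result.{u, v} (Γ : Type u) [AddCommGroup Γ] (G : Type v) [Group G] [DistribMulAction G Γ]
    (K : ℝ) (A : Finset Γ) (hA : A.Nonempty) (hK : AlmostInvariant G K A) :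
    -- 1. an invariant pure subgroup of rank `O(log 2K)`, polynomially many cosets
    (∃ Δ : AddSubgroup Γ,
      (∀ g : G, ∀ x ∈ Δ, g • x ∈ Δ) ∧
      (∀ n : ℕ, n ≠ 0 → ∀ x : Γ, n • x ∈ Δ → x ∈ Δ) ∧
      (∀ (n : ℕ) (w : Fin n → Γ), (∀ i, w i ∈ Δ) → LinearIndependent ℤ w →
        (n : ℝ) ≤ 1702 * Real.log (2 * K)) ∧
      ∃ T ⊆ A, (T.card : ℝ) ≤ (2 * K) ^ 1704 ∧ ∀ a ∈ A, ∃ t ∈ T, a - t ∈ Δ) ∧
    -- 2. if all orbits have large rank, then `A` is small
    ((∀ x : Γ, x ≠ 0 → ∃ (n : ℕ) (g : Fin n → G), 1702 * Real.log (2 * K) < n ∧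
        LinearIndependent ℤ (fun i => g i • x)) →
      (A.card : ℝ) ≤ (2 * K) ^ 1704 ∧
      -- and the images of `A` in the integers satisfy the conclusion of Q1
      ∀ φ : Γ →+ ℤ, Set.InjOn φ (A : Set Γ) →
        ((A.image φ + A.image φ).card : ℝ) ≤ K * ((A.image φ).card : ℝ) ∧
        Q1Conclusion (2 ^ 1704) K (A.image φ)) := by
  have hApos : (0 : ℝ) < A.card := by exact_mod_cast hA.card_pos
  have hAA : ((A + A).card : ℝ) ≤ K * A.card := by
    have h1 := hK 1
    have him1 : A.image (fun x => (1 : G) • x) = A := by simp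
    rwa [him1] at h1
  have hK1 : 1 ≤ K := by
    have h1 : (A.card : ℝ) ≤ (A + A).card := by
      exact_mod_cast Finset.card_le_card_add_right hA
    nlinarith
  refine ⟨H693.EQ.main_group hA hK, ?_⟩
  intro hrank
  have hsmall := H693.EQ.small_group hA hK hrank
  refine ⟨hsmall, ?_⟩
  intro φ hφ
  have hcard : (A.image φ).card = A.card := Finset.card_image_of_injOn hφ
  refine ⟨?_, ?_⟩
  · rw [hcard, ← Finset.image_add]
    refine le_trans ?_ hAA
    exact_mod_cast Finset.card_image_le
  · refine ⟨0, Set.univ, Fin.elim0, A.image φ, ?_, convex_univ, ?_, ?_, ?_, ?_, ?_, ?_⟩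
    · have h0 : 0 ≤ Real.log K := Real.log_nonneg hK1
      have h1 : (0 : ℝ) ≤ 2 ^ 1704 := by positivity
      simpa using mul_nonneg h1 h0
    · exact Set.finite_univ.isCompact
    · rw [interior_univ]; exact Set.univ_nonempty
    · intro x _; trivial
    · rw [hcard]
      have h1 : {x : Fin 0 → ℤ | (fun i => (x i : ℝ)) ∈ (Set.univ : Set (Fin 0 → ℝ))}.ncard ≤ 1 :=
        Set.ncard_le_one_of_subsingleton _
      exact h1.trans (Finset.card_pos.2 hA)
    · rw [hcard]
      refine hsmall.trans ?_
      rw [mul_pow]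
      apply mul_le_mul_of_nonneg_left _ (by positivity)
      rw [← Real.rpow_natCast K 1704]
      apply Real.rpow_le_rpow_of_exponent_le hK1
      have h1 : (1704 : ℕ) < 2 ^ 1704 := Nat.lt_two_pow_self
      exact_mod_cast h1.le
    · intro a ha
      exact ⟨a, ha, Fin.elim0, trivial, by simp⟩

end Pool.Agent.Results.MP_626a77_co.AlmostInvariantSets
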