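import Pool.Agent.H98.Gap.Final

/-!
# The polynomial Freiman-Ruzsa statement for progressions of arbitrary rank
-/

set_option autoImplicit false

namespace Pool.Agent.Results.MP_626a77_co.ArbitraryRankProgressions

open Finset Pool.Agent.H98.Gap
open scoped Pointwise

universe u

/-- **Main theorem.** There is an absolute constant `C` such that, for every abelian group `Γ`, every
`K ≥ 1` and every finite nonempty `A ⊆ Γ`, the conclusion of the polynomial Freiman-Ruzsa conjecture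
holds for `A` with the constant `C` in each of the two following cases.

* There are a generalized arithmetic progression `P = {a + n₁ x₁ + ... + n_D x_D : 0 ≤ n_i ≤ N_i}` of
arbitrary rank `D` (nothing is assumed on `D`, on the sides `N_i`, or on the injectivity of the
parametrization) such that `|A + P| ≤ K |P|` and `|P| ≤ K |A|`.

* There are `D`, a compact convex symmetric set `V ⊆ ℝ^D` that contains the unit cube `[-1,1]^D`, and a
homomorphism `ψ : ℤ^D → Γ`, such that `|A + P| ≤ K |P|` and `|P| ≤ K |A|` for `P = ψ(V ∩ ℤ^D)`. -/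
theorem result : ∃ C : ℝ, ∀ (Γ : Type u) [AddCommGroup Γ] [DecidableEq Γ] (K : ℝ)
    (A P : Finset Γ), 1 ≤ K → A.Nonempty →
    ((A + P).card : ℝ) ≤ K * P.card → (P.card : ℝ) ≤ K * A.card →
    ((∃ (D : ℕ) (a : Γ) (x : Fin D → Γ) (N : Fin D → ℕ),
        ∀ y : Γ, y ∈ P ↔ ∃ n : Fin D → ℕ, (∀ i, n i ≤ N i) ∧ y = a + ∑ i, n i • x i) ∨
      (∃ (D : ℕ) (V : Set (Fin D → ℝ)) (ψ : (Fin D → ℤ) →+ Γ), Convex ℝ V ∧ IsCompact V ∧
        (∀ x ∈ V, -x ∈ V) ∧ (∀ x : Fin D → ℝ, (∀ i, |x i| ≤ 1) → x ∈ V) ∧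
        ∀ y : Γ, y ∈ P ↔ ∃ z : Fin D → ℤ, (fun i => (z i : ℝ)) ∈ V ∧ y = ψ z)) →
    ∃ (d : ℕ) (Q : Set (Fin d → ℝ)) (ψ : (Fin d → ℤ) →+ Γ) (H : AddSubgroup Γ) (T : Finset Γ),
      (d : ℝ) ≤ C * Real.log (2 * K) ∧
      Convex ℝ Q ∧ IsCompact Q ∧ (interior Q).Nonempty ∧ (∀ x ∈ Q, -x ∈ Q) ∧
      Finite H ∧
      {x : Fin d → ℤ | (fun i => (x i : ℝ)) ∈ Q}.ncard * Nat.card H ≤ A.card ∧
      (T.card : ℝ) ≤ C * K ^ C ∧
      ∀ b ∈ A, ∃ t ∈ T, ∃ x : Fin d → ℤ, (fun i => (x i : ℝ)) ∈ Q ∧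
        ∃ h ∈ H, b = t + ψ x + h := by
  obtain ⟨C', hC', hthm⟩ := conv_thm.{u}
  refine ⟨13 * |C'| + 1, ?_⟩
  intro Γ _ _ K A P hK hA hAP hPA hcases
  have hconcl : Pool.Agent.R92.Star.Concl (13 * |C'| + 1) K A := by
    rcases hcases with ⟨D, a, x, N, hP⟩ | ⟨D, V, ψ, h1, h2, h3, h4, hP⟩
    · exact gap_cor hthm Γ D a x N K A P hK hA hP hAP hPA
    · have h5 := hthm Γ D V ψ K A P hK ⟨h1, h2, h3, ⟨0, h4 0 (fun i => by simp)⟩⟩ h4 hA (by
        ext y
        rw [Finset.mem_coe, hP]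
        constructor
        · rintro ⟨z, hz, rfl⟩
          exact ⟨z, hz, rfl⟩
        · rintro ⟨z, hz, rfl⟩
          exact ⟨z, hz, rfl⟩) hAP hPA
      have h6 := concl_pow (Γ := Γ) hK (m := 13) (by norm_num) (C := C') (A := A) (by
        obtain ⟨d, Q, θ, H, T, g1, g2, g3, g4, g5, g6⟩ := h5
        have hK13 : K ≤ K ^ 13 := by
          calc K = K ^ 1 := (pow_one K).symm
            _ ≤ K ^ 13 := pow_le_pow_right₀ hK (by norm_num)
        refine ⟨d, Q, θ, H, T, ?_, g2, g3, g4, ?_, g6⟩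
        · refine g1.trans (mul_le_mul_of_nonneg_left ?_ hC'.le)
          exact Real.log_le_log (by linarith) (by linarith)
        · refine g5.trans (mul_le_mul_of_nonneg_left ?_ hC'.le)
          exact Real.rpow_le_rpow (by linarith) hK13 hC'.le)
      exact_mod_cast h6
  obtain ⟨d, Q, ψ, H, T, g1, g2, g3, g4, g5, g6⟩ := hconcl
  refine ⟨d, Q, ψ, H, T, g1, g2.1, g2.2.1, g2.2.2.1, g2.2.2.2, g3, g4, g5, ?_⟩
  intro b hb
  obtain ⟨t, ht, x, hx, h, hh, he⟩ := g6 b hb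
  exact ⟨t, ht, x, hx, h, hh, he⟩

end Pool.Agent.Results.MP_626a77_co.ArbitraryRankProgressions
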