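import Pool.Agent.H602.MD.Model
import Pool.Agent.H602.MD.Lower
import Pool.Agent.H602.EX.LowN

/-!
# Sets of small doubling in torsion-free groups are dense sets of cyclic groups

A set of integers of doubling `K` is, as a whole and for every order, Freiman isomorphic to a subset of
a cyclic group of density `K ^ (- O(1))`. So Q1 is equivalent to its case of dense sets of cyclic
groups, without loss. In cyclic groups of prime order such models need not exist.
-/

set_option autoImplicit false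

open Finset
open scoped Pointwise

namespace Pool.Agent.Results.MP_626a77_co.PolynomialModels

universe u v

/-- `B` is a centrally symmetric convex body. -/
def IsBody {d : ℕ} (B : Set (Fin d → ℝ)) : Prop :=
  Convex ℝ B ∧ IsCompact B ∧ (interior B).Nonempty ∧ ∀ v ∈ B, -v ∈ B

/-- The conclusion of Q1 for the set `A` of integers, with the constant `C`: `A` is covered by at most
`C K ^ C` translates of a centred convex progression `ψ(ℤ^d ∩ B)` of dimension `d ≤ C log K` and of
volume at most `|A|`. -/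
def Q1Conclusion (C K : ℝ) (A : Finset ℤ) : Prop :=
  ∃ (d : ℕ) (B : Set (Fin d → ℝ)) (ψ : (Fin d → ℤ) →+ ℤ) (T : Finset ℤ),
    (d : ℝ) ≤ C * Real.log K ∧ IsBody B ∧
    {x : Fin d → ℤ | (fun i => (x i : ℝ)) ∈ B}.ncard ≤ A.card ∧ (T.card : ℝ) ≤ C * K ^ C ∧
    ∀ a ∈ A, ∃ t ∈ T, ∃ x : Fin d → ℤ, (fun i => (x i : ℝ)) ∈ B ∧ a = t + ψ x

/-- Q1 -/
def Q1 : Prop := ∃ C : ℝ, ∀ K : ℝ, 2 ≤ K → ∀ A : Finset ℤ, A.Nonempty →
  ((A + A).card : ℝ) ≤ K * A.card → Q1Conclusion C K A

/-- `A` is Freiman isomorphic, of order `n`, to a subset of a cyclic group of order at most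
`K |A|`: a subset of density at least `1 / K`. -/
def HasDenseModel (n : ℕ) (K : ℝ) {G : Type*} [AddCommGroup G] (A : Finset G) : Prop :=
  ∃ (m : ℕ) (B : Set (ZMod m)) (φ : G → ZMod m), 0 < m ∧ (m : ℝ) ≤ K * A.card ∧
    IsAddFreimanIso n (A : Set G) B φ

theorem Q1Conclusion.of_pow {C K : ℝ} (hK : 2 ≤ K) {N : ℕ} {A : Finset ℤ} (hC : 1 ≤ C)
    (h : Q1Conclusion C ((2 * K) ^ N) A) : Q1Conclusion (2 * (N + 1) * C) K A := by
  obtain ⟨d, B, ψ, T, h1, h2, h3, h4, h5⟩ := h
  have hlogK : 0 ≤ Real.log K := Real.log_nonneg (by linarith)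
  have hlog : Real.log (2 * K) ≤ 2 * Real.log K := by
    rw [Real.log_mul (by norm_num) (by linarith)]
    have := Real.log_le_log (by norm_num) hK
    linarith
  have hN : (0 : ℝ) ≤ N := Nat.cast_nonneg _
  refine ⟨d, B, ψ, T, ?_, h2, h3, ?_, h5⟩
  · rw [Real.log_pow] at h1
    calc (d : ℝ) ≤ C * (N * Real.log (2 * K)) := h1
      _ ≤ C * (N * (2 * Real.log K)) := by gcongr
      _ ≤ 2 * (N + 1) * C * Real.log K := by
          have : 0 ≤ C * Real.log K := by positivity
          nlinarith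
  · have e1 : (2 * K) ^ N ≤ (K ^ 2) ^ N := pow_le_pow_left₀ (by positivity) (by nlinarith) N
    have e2 : ((2 * K) ^ N) ^ C ≤ K ^ (2 * (N + 1) * C) := by
      calc ((2 * K) ^ N) ^ C ≤ ((K ^ 2) ^ N) ^ C := Real.rpow_le_rpow (by positivity) e1 (by linarith)
        _ = K ^ (2 * N * C) := by
            rw [← pow_mul, ← Real.rpow_natCast, ← Real.rpow_mul (by linarith)]
            push_cast
            ring_nf
        _ ≤ K ^ (2 * (N + 1) * C) := by
            apply Real.rpow_le_rpow_of_exponent_le (by linarith)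
            nlinarith
    have e3 : C ≤ 2 * (N + 1) * C := by nlinarith
    calc (T.card : ℝ) ≤ C * ((2 * K) ^ N) ^ C := h4
      _ ≤ C * K ^ (2 * (N + 1) * C) := mul_le_mul_of_nonneg_left e2 (by linarith)
      _ ≤ 2 * (N + 1) * C * K ^ (2 * (N + 1) * C) := mul_le_mul_of_nonneg_right e3 (by positivity)

theorem Q1Conclusion.mono {C C' K : ℝ} (hK : 2 ≤ K) {A : Finset ℤ} (hC : C ≤ C') (hC' : 0 ≤ C')
    (h : Q1Conclusion C K A) : Q1Conclusion C' K A := by
  obtain ⟨d, B, ψ, T, h1, h2, h3, h4, h5⟩ := h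
  refine ⟨d, B, ψ, T, h1.trans (mul_le_mul_of_nonneg_right hC (Real.log_nonneg (by linarith))), h2, h3,
    ?_, h5⟩
  have e1 : K ^ C ≤ K ^ C' := Real.rpow_le_rpow_of_exponent_le (by linarith) hC
  have e2 : 0 ≤ K ^ C := Real.rpow_nonneg (by linarith) _
  calc (T.card : ℝ) ≤ C * K ^ C := h4
    _ ≤ C' * K ^ C := mul_le_mul_of_nonneg_right hC e2
    _ ≤ C' * K ^ C' := mul_le_mul_of_nonneg_left e1 hC'

/-- a set with a dense model has small doubling -/
theorem HasDenseModel.doubling {n : ℕ} (hn : 2 ≤ n) {K : ℝ} {G : Type*} [AddCommGroup G]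
    [DecidableEq G] {A : Finset G} (h : HasDenseModel n K A) : ((A + A).card : ℝ) ≤ K * A.card := by
  classical
  obtain ⟨m, B, φ, hm, hmK, hφ⟩ := h
  have : NeZero m := ⟨hm.ne'⟩
  have hiso : Pool.Agent.H602.MD.IsoN n A φ := fun s t hs ht hsn htn =>
    hφ.map_sum_eq_map_sum (fun x hx => mem_coe.2 (hs x hx)) (fun x hx => mem_coe.2 (ht x hx)) hsn htn
  have hch : ∀ z : G, ∃ q : G × G, z ∈ A + A → q.1 ∈ A ∧ q.2 ∈ A ∧ q.1 + q.2 = z := by
    intro z
    by_cases hz : z ∈ A + A
    · obtain ⟨a, ha, b, hb, hab⟩ := mem_add.1 hz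
      exact ⟨(a, b), fun _ => ⟨ha, hb, hab⟩⟩
    · exact ⟨(0, 0), fun h' => absurd h' hz⟩
  choose q hq using hch
  have hcard : (A + A).card ≤ (univ : Finset (ZMod m)).card := by
    refine card_le_card_of_injOn (fun z => φ (q z).1 + φ (q z).2) (fun z _ => mem_coe.2 (mem_univ _)) ?_
    intro z hz z' hz' he
    obtain ⟨h1, h2, h3⟩ := hq z hz
    obtain ⟨h1', h2', h3'⟩ := hq z' hz'
    have := (hiso.two hn h1 h2 h1' h2').1 he
    rw [h3, h3'] at this
    exact this
  rw [card_univ, ZMod.card] at hcard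
  have : ((A + A).card : ℝ) ≤ m := by exact_mod_cast hcard
  exact this.trans hmK

/-- **Small doubling is density in a cyclic group.** (1) A finite nonempty set `A` of a torsion-free
abelian group with `|A + A| ≤ K |A|` is Freiman isomorphic of order `n` to a subset of density at least
`(2K) ^ (- 50000 n)` of a cyclic group, also to one of density at least `(2n) ^ (- 2 10 ^ 17 K)`, and to
a subset of a cyclic group of prime order at most
`(2K) ^ (50000 n) |A| log (2 |A|)`; conversely a set of any group which is isomorphic to a subset of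
density at least `1 / K` of a cyclic group has doubling at most `K`. (2) Q1 is equivalent, for every
`n ≥ 2`, to the assertion that the sets of integers isomorphic, of order `n`, to a subset of density at
least `1 / K` of a cyclic group satisfy the conclusion of Q1. (3) In cyclic groups of prime order (1)
is false: there are sets `S` with `|S + S| ≤ (k + 2) |S|` which are isomorphic, of order two, only to
subsets of groups with at least `2 ^ (k - 2) |S|` elements. (4) In `ℤ ^ d` there is a set of `d + 1`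
elements and of doubling at most `(d + 2) / 2` which is isomorphic of order `n` only to subsets of groups
with at least `C(n + d, n)` elements. -/
theorem result :
    (∀ (G : Type u) [AddCommGroup G] [DecidableEq G] (K : ℝ) (n : ℕ) (A : Finset G),
      2 ≤ n → A.Nonempty →
        ((∀ (j : ℕ) (x : G), j ≠ 0 → j • x = 0 → x = 0) → ((A + A).card : ℝ) ≤ K * A.card →
          HasDenseModel n ((2 * K) ^ (50000 * n)) A ∧
          HasDenseModel n ((2 * n) ^ (2 * 10 ^ 17 * K)) A ∧
          (∃ (p : ℕ) (B : Set (ZMod p)) (φ : G → ZMod p), p.Prime ∧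
            (p : ℝ) ≤ (2 * K) ^ (50000 * n) * A.card * Real.log (2 * A.card) ∧
            IsAddFreimanIso n (A : Set G) B φ)) ∧
        (HasDenseModel n K A → ((A + A).card : ℝ) ≤ K * A.card)) ∧
    (∀ n : ℕ, 2 ≤ n → (Q1 ↔ ∃ C : ℝ, ∀ K : ℝ, 2 ≤ K → ∀ A : Finset ℤ, A.Nonempty →
      HasDenseModel n K A → Q1Conclusion C K A)) ∧
    (∀ k : ℕ, 1 ≤ k → ∃ (p : ℕ) (S : Finset (ZMod p)), p.Prime ∧ S.Nonempty ∧
      (S + S).card ≤ (k + 2) * S.card ∧
      ∀ (H : Type v) [AddCommGroup H] [Finite H] (φ : ZMod p → H) (B : Set H),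
        IsAddFreimanIso 2 (S : Set (ZMod p)) B φ → 2 ^ k * S.card ≤ 4 * Nat.card H) ∧
    (∀ d n : ℕ, ∃ S : Finset (Fin d → ℤ), S.card = d + 1 ∧ 2 * (S + S).card ≤ (d + 2) * S.card ∧
      ∀ (H : Type v) [AddCommGroup H] [Finite H] (φ : (Fin d → ℤ) → H) (B : Set H),
        IsAddFreimanIso n (S : Set (Fin d → ℤ)) B φ → (n + d).choose n ≤ Nat.card H) := by
  classical
  have key : ∀ (G : Type u) [AddCommGroup G] [DecidableEq G] (K : ℝ) (n : ℕ) (A : Finset G),
      2 ≤ n → A.Nonempty → (∀ (j : ℕ) (x : G), j ≠ 0 → j • x = 0 → x = 0) →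
      ((A + A).card : ℝ) ≤ K * A.card → HasDenseModel n ((2 * K) ^ (50000 * n)) A := by
    intro G _ _ K n A hn hA htf hK
    obtain ⟨m, φ, hm0, hm1, hφ⟩ := Pool.Agent.H602.MD.model htf hn hA hK
    exact ⟨m, _, φ, hm0, hm1, hφ.freiman hn⟩
  refine ⟨?_, ?_, fun k hk => Pool.Agent.H602.MD.lower k hk, fun d n => ?_⟩
  · intro G _ _ K n A hn hA
    refine ⟨fun htf hK => ⟨key G K n A hn hA htf hK, ?_, ?_⟩, fun h => h.doubling hn⟩
    · obtain ⟨m, φ, hm0, hm1, hφ⟩ := Pool.Agent.H602.EX.cyclicX htf hn hA hK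
      exact ⟨m, _, φ, hm0, hm1, hφ.freiman hn⟩
    obtain ⟨p, φ, hp0, hp1, hφ⟩ := Pool.Agent.H602.MD.modelPrime htf hn hA hK
    exact ⟨p, _, φ, hp0, hp1, hφ.freiman hn⟩
  · intro n hn
    constructor
    · rintro ⟨C, hC⟩
      exact ⟨C, fun K hK A hA h => hC K hK A hA (h.doubling hn)⟩
    · rintro ⟨C, hC⟩
      refine ⟨2 * ((50000 * n : ℕ) + 1) * max C 1, fun K hK A hA hd => ?_⟩
      obtain ⟨m, φ, hm0, hm1, hφ⟩ := Pool.Agent.H602.MD.model (G := ℤ) (fun j x hj hx => by
        rw [nsmul_eq_mul] at hx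
        rcases mul_eq_zero.1 hx with h | h
        · exact absurd (by exact_mod_cast h) hj
        · exact h) hn hA hd
      have h2K : 2 ≤ (2 * K) ^ (50000 * n) := by
        calc (2 : ℝ) ≤ 2 * K := by linarith
          _ = (2 * K) ^ 1 := (pow_one _).symm
          _ ≤ (2 * K) ^ (50000 * n) := pow_le_pow_right₀ (by linarith) (by omega)
      have h1 := hC _ h2K A hA ⟨m, _, φ, hm0, hm1, hφ.freiman hn⟩
      have h2 := h1.mono h2K (le_max_left C 1) (by positivity)
      exact h2.of_pow hK (le_max_right C 1)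
  · refine ⟨Pool.Agent.H602.EX.simplex d, Pool.Agent.H602.EX.card_simplex d, ?_, ?_⟩
    · have h1 := Pool.Agent.H602.EX.card_add_self_le (Pool.Agent.H602.EX.simplex d)
      rw [Pool.Agent.H602.EX.card_simplex] at h1 ⊢
      rw [Nat.choose_two_right] at h1
      have h2 : 2 * ((d + 1 + 1) * (d + 1 + 1 - 1) / 2) = (d + 1 + 1) * (d + 1 + 1 - 1) :=
        Nat.mul_div_cancel' (Nat.even_mul_pred_self _).two_dvd
      have h3 : d + 1 + 1 - 1 = d + 1 := by omega
      rw [h3] at h1 h2
      calc 2 * (Pool.Agent.H602.EX.simplex d + Pool.Agent.H602.EX.simplex d).card ≤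
            2 * ((d + 1 + 1) * (d + 1) / 2) := Nat.mul_le_mul_left _ h1
        _ = (d + 2) * (d + 1) := h2
    · intro H _ _ φ B hφ
      exact Pool.Agent.H602.EX.lowN d n H φ fun s t hs ht hsn htn =>
        hφ.map_sum_eq_map_sum (fun x hx => mem_coe.2 (hs x hx)) (fun x hx => mem_coe.2 (ht x hx)) hsn htn

end Pool.Agent.Results.MP_626a77_co.PolynomialModels
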